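import Pool.Agent.H25.CN.Net
import Pool.Agent.H76.GU.FamP

/-!
# H59 CN, Fam: the net family in abstract form (chapters N3, N4 of THEOREM CCC)

`Nd`: for `g : G` and `x` in the open set `Rb g` a domain `D g x` of vertices, a configuration `cf g x y` at every `y ∈ D g x`
and a centre `v g x`; `Nd.Good`: everything is equivariant and locally constant in `x`, at most `Λ` configurations occur for
`g = 1`, `near` symmetries of configurations lie in the finite groups `Γ`.  `lab`: numbering of the `G`-orbits of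
configurations; `Z g x`: the canonical net for the adjacency `distance ≤ a and different labels`; `cl k = Γ k • k`;
`W κ g`: the points `x` such that some selected `z` at distance `≤ e` from the centre has `cl (cf g x z) = κ`.
`isFam`: this is a family of multiplicity `M`; `wide`: two data which agree near `y0` select a common class.
-/

set_option autoImplicit false

namespace Pool.Agent.H59.CN

open Pool.Agent.H98.FJ Pool.Agent.H76.GT Pool.Agent.H25.CN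
open scoped Pointwise Topology

/-- the data of the net family -/
structure Nd (G X V K : Type) [Group G] [TopologicalSpace X] [MulAction G X] [MulAction G V] [MulAction G K] where
  /-- the good sets -/
  Rb : G → Set X
  /-- the domains -/
  D : G → X → Set V
  /-- the configurations -/
  cf : G → X → V → K
  /-- the centres -/
  v : G → X → V
  /-- the distance -/
  d : V → V → ℕ
  /-- the finite groups -/
  Γ : K → Subgroup G
  /-- the mesh of the net -/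
  a : ℕ
  /-- the radius of the window -/
  e : ℕ
  /-- the degree -/
  Δ : ℕ
  /-- the number of configurations -/
  Λ : ℕ
  /-- the multiplicity -/
  M : ℕ

variable {G X V K : Type} [Group G] [TopologicalSpace X] [MulAction G X] [MulAction G V] [MulAction G K]

/-- the axioms of the net family -/
structure Nd.Good (N : Nd G X V K) : Prop where
  isOpen : ∀ g, IsOpen (N.Rb g)
  smul_Rb : ∀ (g h : G) (x : X), x ∈ N.Rb h → g • x ∈ N.Rb (g * h)
  smul_D : ∀ (g h : G) (x : X), x ∈ N.Rb h → ∀ y, y ∈ N.D h x → g • y ∈ N.D (g * h) (g • x)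
  smul_v : ∀ (g h : G) (x : X), x ∈ N.Rb h → N.v (g * h) (g • x) = g • N.v h x
  smul_cf : ∀ (g h : G) (x : X), x ∈ N.Rb h → ∀ y ∈ N.D h x, N.cf (g * h) (g • x) (g • y) = g • N.cf h x y
  loc : ∀ (h : G) (x : X), x ∈ N.Rb h → ∀ᶠ x' in 𝓝 x, N.D h x' = N.D h x ∧ N.v h x' = N.v h x ∧
    ∀ y ∈ N.D h x, N.cf h x' y = N.cf h x y
  smul_d : ∀ (g : G) (y z : V), N.d (g • y) (g • z) = N.d y z
  self : ∀ y, N.d y y = 0
  comm : ∀ y z, N.d y z = N.d z y
  tri : ∀ y z u, N.d y u ≤ N.d y z + N.d z u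
  smul_Γ : ∀ (g t : G) (k : K), t ∈ N.Γ (g • k) ↔ g⁻¹ * t * g ∈ N.Γ k
  fin : ∀ (h : G) (x : X), x ∈ N.Rb h → ∀ y ∈ N.D h x, N.d y (N.v h x) ≤ N.e → Finite (N.Γ (N.cf h x y))
  near : ∀ (h : G) (x : X), x ∈ N.Rb h → ∀ y ∈ N.D h x, ∀ z ∈ N.D h x, N.d y (N.v h x) ≤ N.e → N.d z (N.v h x) ≤ N.e →
    ∀ t : G, N.cf h x z = t • N.cf h x y → t ∈ N.Γ (N.cf h x y)
  stab : ∀ (h : G) (x : X), x ∈ N.Rb h → ∀ y ∈ N.D h x, N.d y (N.v h x) ≤ N.e →
    Finite (MulAction.stabilizer G (N.cf h x y))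
  occ : {k | ∃ x ∈ N.Rb 1, ∃ y ∈ N.D 1 x, N.cf 1 x y = k}.encard ≤ N.Λ
  deg : ∀ (h : G) (x : X), x ∈ N.Rb h → ∀ y ∈ N.D h x, {z | z ∈ N.D h x ∧ N.d y z ≤ N.a}.encard ≤ N.Δ
  pack : ∀ (h : G) (x : X), x ∈ N.Rb h → ∀ F : Finset V, (∀ z ∈ F, z ∈ N.D h x ∧ N.d z (N.v h x) ≤ N.e) →
    (∀ z ∈ F, ∀ z' ∈ F, z ≠ z' → N.a < N.d z z') → F.card ≤ N.M

namespace Nd

variable (N : Nd G X V K)

/-- the orbits which occur -/
def Oc : Set (MulAction.orbitRel.Quotient G K) :=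
  {q | ∃ x ∈ N.Rb 1, ∃ y ∈ N.D 1 x, (Quotient.mk'' (N.cf 1 x y) : MulAction.orbitRel.Quotient G K) = q}

theorem Oc_encard (h : N.Good) : N.Oc.encard ≤ N.Λ := by
  have e : N.Oc = (fun k => (Quotient.mk'' k : MulAction.orbitRel.Quotient G K)) '' {k | ∃ x ∈ N.Rb 1, ∃ y ∈ N.D 1 x, N.cf 1 x y = k} := by
    ext q
    constructor
    · rintro ⟨x, hx, y, hy, rfl⟩
      exact ⟨_, ⟨x, hx, y, hy, rfl⟩, rfl⟩
    · rintro ⟨_, ⟨x, hx, y, hy, rfl⟩, rfl⟩
      exact ⟨x, hx, y, hy, rfl⟩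
  rw [e]
  exact le_trans (Set.encard_image_le _ _) h.occ

theorem exists_num (h : N.Good) : ∃ f : MulAction.orbitRel.Quotient G K → ℕ, Set.InjOn f N.Oc ∧ ∀ q ∈ N.Oc, f q < N.Λ := by
  classical
  have hfin : N.Oc.Finite := Set.finite_of_encard_le_coe (N.Oc_encard h)
  have hcard : hfin.toFinset.card ≤ N.Λ := by
    have h1 := N.Oc_encard h
    rw [hfin.encard_eq_coe_toFinset_card] at h1
    exact_mod_cast h1
  obtain ⟨j⟩ : Nonempty (hfin.toFinset ↪ Fin N.Λ) := by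
    apply Function.Embedding.nonempty_of_card_le
    rw [Fintype.card_coe, Fintype.card_fin]
    exact hcard
  refine ⟨fun q => if hq : q ∈ hfin.toFinset then (j ⟨q, hq⟩ : ℕ) else 0, ?_, ?_⟩
  · intro q hq q' hq' hqq
    have h1 : q ∈ hfin.toFinset := hfin.mem_toFinset.2 hq
    have h2 : q' ∈ hfin.toFinset := hfin.mem_toFinset.2 hq'
    simp only [dif_pos h1, dif_pos h2] at hqq
    exact congrArg Subtype.val (j.injective (Fin.ext hqq))
  · intro q hq
    have h1 : q ∈ hfin.toFinset := hfin.mem_toFinset.2 hq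
    simp only [dif_pos h1]
    exact (j ⟨q, h1⟩).2

open Classical in
/-- the label of a configuration -/
noncomputable def lab (k : K) : ℕ :=
  if h : ∃ f : MulAction.orbitRel.Quotient G K → ℕ, Set.InjOn f N.Oc ∧ ∀ q ∈ N.Oc, f q < N.Λ then
    Classical.choose h (Quotient.mk'' k) else 0

theorem lab_smul (g : G) (k : K) : N.lab (g • k) = N.lab k := by
  have e : (Quotient.mk'' (g • k) : MulAction.orbitRel.Quotient G K) = Quotient.mk'' k :=
    Quotient.sound' (MulAction.orbitRel_apply.2 (MulAction.mem_orbit k g))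
  unfold lab
  rw [e]

theorem mem_Oc (h : N.Good) {g : G} {x : X} (hx : x ∈ N.Rb g) {y : V} (hy : y ∈ N.D g x) :
    (Quotient.mk'' (N.cf g x y) : MulAction.orbitRel.Quotient G K) ∈ N.Oc := by
  have h1 := h.smul_Rb g⁻¹ g x hx
  have h2 := h.smul_D g⁻¹ g x hx y hy
  have h3 := h.smul_cf g⁻¹ g x hx y hy
  rw [inv_mul_cancel] at h1 h2 h3
  refine ⟨_, h1, _, h2, ?_⟩
  rw [h3]
  exact Quotient.sound' (MulAction.orbitRel_apply.2 (MulAction.mem_orbit _ _))

theorem lab_lt (h : N.Good) {g : G} {x : X} (hx : x ∈ N.Rb g) {y : V} (hy : y ∈ N.D g x) : N.lab (N.cf g x y) < N.Λ := by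
  unfold lab
  rw [dif_pos (N.exists_num h)]
  exact (Classical.choose_spec (N.exists_num h)).2 _ (N.mem_Oc h hx hy)

theorem lab_eq (h : N.Good) {g : G} {x : X} (hx : x ∈ N.Rb g) {y : V} (hy : y ∈ N.D g x) {g' : G} {x' : X}
    (hx' : x' ∈ N.Rb g') {y' : V} (hy' : y' ∈ N.D g' x') (he : N.lab (N.cf g x y) = N.lab (N.cf g' x' y')) :
    ∃ t : G, N.cf g' x' y' = t • N.cf g x y := by
  unfold lab at he
  rw [dif_pos (N.exists_num h), dif_pos (N.exists_num h)] at he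
  have h1 := (Classical.choose_spec (N.exists_num h)).1 (N.mem_Oc h hx hy) (N.mem_Oc h hx' hy') he
  have h2 := MulAction.orbitRel_apply.1 (Quotient.exact' h1.symm)
  obtain ⟨t, ht⟩ := h2
  exact ⟨t, ht.symm⟩

open Classical in
/-- the labels of the points -/
noncomputable def l (g : G) (x : X) (y : V) : ℕ := if y ∈ N.D g x then N.lab (N.cf g x y) else 0

/-- the adjacency -/
def adj (g : G) (x : X) (y z : V) : Prop := y ∈ N.D g x ∧ z ∈ N.D g x ∧ N.d y z ≤ N.a ∧ N.l g x y ≠ N.l g x z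

/-- the net -/
noncomputable def Z (g : G) (x : X) : Set V := net N.Δ N.Λ (N.D g x) (N.adj g x) (N.l g x)

theorem l_eq {g : G} {x : X} {y : V} (hy : y ∈ N.D g x) : N.l g x y = N.lab (N.cf g x y) := if_pos hy

theorem ok (h : N.Good) {g : G} {x : X} (hx : x ∈ N.Rb g) : Ok N.Δ N.Λ (N.D g x) (N.adj g x) (N.l g x) where
  symm y z hz := ⟨hz.2.1, hz.1, (h.comm z y).trans_le hz.2.2.1, hz.2.2.2.symm⟩
  mem y z hz := hz.1
  deg y hy := by
    have hsub : {z | N.adj g x y z} ⊆ {z | z ∈ N.D g x ∧ N.d y z ≤ N.a} := fun z hz => ⟨hz.2.1, hz.2.2.1⟩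
    exact le_trans (Set.encard_le_encard hsub) (h.deg g x hx y hy)
  lt y hy := by
    rw [N.l_eq hy]
    exact N.lab_lt h hx hy
  ne y z hz := hz.2.2.2

/-- the class of a configuration -/
def cl (k : K) : Set K := {k' | ∃ t ∈ N.Γ k, t • k = k'}

theorem cl_smul (h : N.Good) (g : G) (k : K) : N.cl (g • k) = g • N.cl k := by
  ext k'
  rw [Set.mem_smul_set_iff_inv_smul_mem]
  constructor
  · rintro ⟨t, ht, rfl⟩
    refine ⟨g⁻¹ * t * g, (h.smul_Γ g t k).1 ht, ?_⟩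
    rw [smul_smul, smul_smul, mul_assoc]
  · rintro ⟨t, ht, ht'⟩
    refine ⟨g * t * g⁻¹, (h.smul_Γ g _ k).2 ?_, ?_⟩
    · have e : g⁻¹ * (g * t * g⁻¹) * g = t := by group
      rw [e]
      exact ht
    · rw [smul_smul, inv_mul_cancel_right, mul_smul, ht', smul_inv_smul]

theorem cl_eq (h : N.Good) {t : G} {k : K} (ht : t ∈ N.Γ k) : N.cl (t • k) = N.cl k := by
  ext k'
  constructor
  · rintro ⟨s, hs, rfl⟩
    refine ⟨s * t, ?_, mul_smul _ _ _⟩
    have h1 := (h.smul_Γ t s k).1 hs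
    have e : s * t = t * (t⁻¹ * s * t) := by group
    rw [e]
    exact mul_mem ht h1
  · rintro ⟨s, hs, rfl⟩
    refine ⟨s * t⁻¹, (h.smul_Γ t _ k).2 ?_, ?_⟩
    · have e : t⁻¹ * (s * t⁻¹) * t = t⁻¹ * s := by group
      rw [e]
      exact mul_mem (inv_mem ht) hs
    · rw [smul_smul, inv_mul_cancel_right]

theorem mem_cl (k : K) : k ∈ N.cl k := ⟨1, one_mem _, one_smul _ _⟩

/-- the family -/
noncomputable def W (κ : Set K) (g : G) : Set X :=
  {x | x ∈ N.Rb g ∧ ∃ z ∈ N.Z g x, N.d z (N.v g x) ≤ N.e ∧ N.cl (N.cf g x z) = κ}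

theorem Z_sub {g : G} {x : X} {z : V} (hz : z ∈ N.Z g x) : z ∈ N.D g x := net_sub hz

theorem D_iff (h : N.Good) {g k : G} {x : X} (hx : x ∈ N.Rb k) (y : V) : y ∈ N.D k x ↔ g • y ∈ N.D (g * k) (g • x) := by
  refine ⟨h.smul_D g k x hx y, fun hy => ?_⟩
  have h1 := h.smul_D g⁻¹ (g * k) (g • x) (h.smul_Rb g k x hx) (g • y) hy
  rwa [inv_smul_smul, inv_smul_smul, inv_mul_cancel_left] at h1

theorem l_smul (h : N.Good) {g k : G} {x : X} (hx : x ∈ N.Rb k) (y : V) : N.l k x y = N.l (g * k) (g • x) (g • y) := by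
  by_cases hy : y ∈ N.D k x
  · rw [N.l_eq hy, N.l_eq ((N.D_iff h hx y).1 hy), h.smul_cf g k x hx y hy, N.lab_smul]
  · have hy' : g • y ∉ N.D (g * k) (g • x) := fun h' => hy ((N.D_iff h hx y).2 h')
    unfold l
    rw [if_neg hy, if_neg hy']

theorem Z_smul (h : N.Good) {g k : G} {x : X} (hx : x ∈ N.Rb k) (y : V) : y ∈ N.Z k x ↔ g • y ∈ N.Z (g * k) (g • x) := by
  refine net_equiv (MulAction.toPerm g) (fun y => N.D_iff h hx y) (fun y z => ?_) (fun y => N.l_smul h hx y) y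
  show N.adj k x y z ↔ N.adj (g * k) (g • x) (g • y) (g • z)
  unfold adj
  rw [← N.D_iff h hx, ← N.D_iff h hx, h.smul_d, ← N.l_smul h hx, ← N.l_smul h hx]

theorem W_same {g : G} {x x' : X} (hx' : x' ∈ N.Rb g) (hD : N.D g x' = N.D g x)
    (hv : N.v g x' = N.v g x) (hcf : ∀ y ∈ N.D g x, N.cf g x' y = N.cf g x y) {κ : Set K} (hW : x ∈ N.W κ g) :
    x' ∈ N.W κ g := by
  obtain ⟨-, z, hz, h1, h2⟩ := hW
  have hl : N.l g x' = N.l g x := by
    funext y
    unfold l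
    by_cases hy : y ∈ N.D g x
    · rw [if_pos hy, if_pos (hD ▸ hy), hcf y hy]
    · rw [if_neg hy, if_neg (fun h' => hy (hD ▸ h'))]
  have ha : N.adj g x' = N.adj g x := by
    funext y z
    unfold adj
    rw [hD, hl]
  refine ⟨hx', z, ?_, ?_, ?_⟩
  · unfold Z
    rw [hD, ha, hl]
    exact hz
  · rw [hv]
    exact h1
  · rw [hcf z (N.Z_sub hz)]
    exact h2

theorem W_eq (h : N.Good) {g t : G} {x : X} {κ : Set K} (h1 : x ∈ N.W κ g) (h2 : x ∈ N.W (t • κ) g) : t • κ = κ := by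
  obtain ⟨hx, z, hz, hzv, rfl⟩ := h1
  obtain ⟨-, z', hz', hzv', h3⟩ := h2
  have h4 : N.cf g x z' ∈ t • N.cl (N.cf g x z) := h3 ▸ N.mem_cl _
  rw [Set.mem_smul_set_iff_inv_smul_mem] at h4
  obtain ⟨s, hs, hs'⟩ := h4
  have h5 : N.cf g x z' = (t * s) • N.cf g x z := by
    rw [mul_smul, hs', smul_inv_smul]
  have h6 := h.near g x hx z (N.Z_sub hz) z' (N.Z_sub hz') hzv hzv' _ h5
  have h7 : t ∈ N.Γ (N.cf g x z) := by
    have e : t = (t * s) * s⁻¹ := by group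
    rw [e]
    exact mul_mem h6 (inv_mem hs)
  rw [← N.cl_smul h, N.cl_eq h h7]

theorem W_mult (h : N.Good) (g : G) (x : X) : {κ | x ∈ N.W κ g}.encard ≤ N.M := by
  classical
  by_cases hx : x ∈ N.Rb g
  swap
  · have e : {κ | x ∈ N.W κ g} = ∅ := by
      ext κ
      exact ⟨fun h' => hx h'.1, fun h' => absurd h' (Set.notMem_empty _)⟩
    rw [e, Set.encard_empty]
    exact bot_le
  have hch : ∀ κ : {κ | x ∈ N.W κ g}, ∃ z, z ∈ N.Z g x ∧ N.d z (N.v g x) ≤ N.e ∧ N.cl (N.cf g x z) = κ :=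
    fun κ => κ.2.2
  choose z hz using hch
  by_contra hlt
  rw [not_le] at hlt
  have h1 : ((N.M + 1 : ℕ) : ℕ∞) ≤ {κ | x ∈ N.W κ g}.encard := by
    push_cast
    exact Order.add_one_le_of_lt hlt
  obtain ⟨T, hT, hTc⟩ := Set.exists_subset_encard_eq h1
  have hTf : T.Finite := Set.finite_of_encard_eq_coe hTc
  have hTc' : hTf.toFinset.card = N.M + 1 := by
    rw [hTf.encard_eq_coe_toFinset_card] at hTc
    exact_mod_cast hTc
  have hinj : Function.Injective z := by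
    intro κ κ' hκ
    apply Subtype.ext
    rw [← (hz κ).2.2, ← (hz κ').2.2, hκ]
  let F : Finset V := hTf.toFinset.attach.image fun κ => z ⟨κ.1, hT (hTf.mem_toFinset.1 κ.2)⟩
  have hFc : F.card = N.M + 1 := by
    rw [Finset.card_image_of_injective, Finset.card_attach, hTc']
    intro κ κ' hκ
    have h3 := hinj hκ
    have h4 : κ.1 = κ'.1 := congrArg (fun q => q.1) h3
    exact Subtype.ext h4
  have h2 := h.pack g x hx F ?_ ?_
  · omega
  · intro y hy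
    obtain ⟨κ, -, rfl⟩ := Finset.mem_image.1 hy
    exact ⟨N.Z_sub (hz _).1, (hz _).2.1⟩
  · intro y hy y' hy' hne
    obtain ⟨κ, -, rfl⟩ := Finset.mem_image.1 hy
    obtain ⟨κ', -, rfl⟩ := Finset.mem_image.1 hy'
    obtain ⟨a1, b1, c1⟩ := hz ⟨κ.1, hT (hTf.mem_toFinset.1 κ.2)⟩
    obtain ⟨a2, b2, c2⟩ := hz ⟨κ'.1, hT (hTf.mem_toFinset.1 κ'.2)⟩
    by_contra hd
    rw [not_lt] at hd
    have hl : N.l g x (z ⟨κ.1, hT (hTf.mem_toFinset.1 κ.2)⟩) = N.l g x (z ⟨κ'.1, hT (hTf.mem_toFinset.1 κ'.2)⟩) := by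
      by_contra hl
      exact net_indep (N.ok h hx) _ a1 _ a2 ⟨N.Z_sub a1, N.Z_sub a2, hd, hl⟩
    rw [N.l_eq (N.Z_sub a1), N.l_eq (N.Z_sub a2)] at hl
    obtain ⟨t, ht⟩ := N.lab_eq h hx (N.Z_sub a1) hx (N.Z_sub a2) hl
    have h3 := h.near g x hx _ (N.Z_sub a1) _ (N.Z_sub a2) b1 b2 t ht
    have h4 : κ.1 = κ'.1 := by
      have e1 : κ.1 = N.cl (N.cf g x (z ⟨κ.1, hT (hTf.mem_toFinset.1 κ.2)⟩)) := c1.symm
      have e2 : κ'.1 = N.cl (N.cf g x (z ⟨κ'.1, hT (hTf.mem_toFinset.1 κ'.2)⟩)) := c2.symm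
      rw [e1, e2, ht, N.cl_eq h h3]
    apply hne
    have h5 : κ = κ' := Subtype.ext h4
    rw [h5]

theorem W_stab (h : N.Good) {g : G} {x : X} {κ : Set K} (hW : x ∈ N.W κ g) : Finite (MulAction.stabilizer G κ) := by
  obtain ⟨hx, z, hz, hzv, rfl⟩ := hW
  obtain ⟨k, hk⟩ : ∃ k, k = N.cf g x z := ⟨_, rfl⟩
  have hΓ := h.fin g x hx z (N.Z_sub hz) hzv
  have hst := h.stab g x hx z (N.Z_sub hz) hzv
  rw [← hk] at hΓ hst ⊢
  -- every element of the stabiliser is a product of an element of `Γ k` and an element of the stabiliser of `k`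
  have h1 : ∀ t : MulAction.stabilizer G (N.cl k), ∃ s : N.Γ k, ∃ u : MulAction.stabilizer G k, (t : G) = s * u := by
    intro t
    have h2 : (t : G) • N.cl k = N.cl k := t.2
    have h3 : (t : G) • k ∈ N.cl k := by
      have h4 : (t : G) • k ∈ (t : G) • N.cl k := Set.smul_mem_smul_set (N.mem_cl k)
      rwa [h2] at h4
    obtain ⟨s, hs, hs'⟩ := h3
    refine ⟨⟨s, hs⟩, ⟨s⁻¹ * t, ?_⟩, ?_⟩
    · rw [MulAction.mem_stabilizer_iff, mul_smul, ← hs', inv_smul_smul]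
    · show (t : G) = s * (s⁻¹ * t)
      rw [mul_inv_cancel_left]
  choose s u hsu using h1
  refine Finite.of_injective (fun t => (s t, u t)) ?_
  intro t t' htt
  apply Subtype.ext
  rw [hsu t, hsu t']
  have h5 : s t = s t' := congrArg Prod.fst htt
  have h6 : u t = u t' := congrArg Prod.snd htt
  rw [h5, h6]

/-- the net family is a family -/
theorem isFam {C : (G : Type) → [Group G] → Prop} (hC : Inherits C) (h : N.Good) :
    IsFam C N.M (fun (κ : Set K) (g : G) => N.W κ g) where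
  isOpen κ g := by
    rw [isOpen_iff_mem_nhds]
    intro x hx
    filter_upwards [h.loc g x hx.1, (h.isOpen g).mem_nhds hx.1] with x' h1 h2
    exact N.W_same h2 h1.1 h1.2.1 h1.2.2 hx
  equiv κ g k x hx := by
    obtain ⟨h1, z, hz, h2, h3⟩ := hx
    refine ⟨h.smul_Rb g k x h1, g • z, (N.Z_smul h h1 z).1 hz, ?_, ?_⟩
    · rw [h.smul_v g k x h1, h.smul_d]
      exact h2
    · rw [h.smul_cf g k x h1 z (N.Z_sub hz), N.cl_smul h, h3]
  eq κ g k x hx hx' := N.W_eq h hx hx'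
  stab κ k x hx := by
    have := N.W_stab h hx
    exact hC.fin _ this
  mult k x := N.W_mult h k x

/-- the net family is wide: `y0` is in all domains, and the data agree within `(col + 4) a` of `y0` -/
theorem wide (h : N.Good) {g : G} {x : X} {S : Set G} (hS : S.Nonempty) (hx : ∀ s ∈ S, x ∈ N.Rb (g * s)) {y0 : V}
    (hy0 : ∀ s ∈ S, y0 ∈ N.D (g * s) x)
    (hag : ∀ s ∈ S, ∀ s' ∈ S, ∀ y, N.d y0 y ≤ (col N.Δ N.Λ + 4) * N.a → y ∈ N.D (g * s) x →
      y ∈ N.D (g * s') x ∧ N.cf (g * s) x y = N.cf (g * s') x y)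
    (hv : ∀ s ∈ S, N.d y0 (N.v (g * s) x) + N.a ≤ N.e) : ∃ κ : Set K, ∀ s ∈ S, x ∈ N.W κ (g * s) := by
  obtain ⟨s0, hs0⟩ := hS
  -- a selected point near y0
  have h1 : ∃ z, z ∈ N.Z (g * s0) x ∧ N.d y0 z ≤ N.a := by
    rcases net_max (N.ok h (hx s0 hs0)) (hy0 s0 hs0) with h2 | ⟨z, hz, hz'⟩
    · exact ⟨y0, h2, (h.self y0).trans_le (Nat.zero_le _)⟩
    · exact ⟨z, hz, hz'.2.2.1⟩
  obtain ⟨z, hz, hz'⟩ := h1
  have hl : ∀ s ∈ S, ∀ s' ∈ S, ∀ y, N.d y0 y ≤ (col N.Δ N.Λ + 4) * N.a → N.l (g * s) x y = N.l (g * s') x y := by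
    intro s hs s' hs' y hy
    unfold l
    by_cases hD : y ∈ N.D (g * s) x
    · obtain ⟨h2, h3⟩ := hag s hs s' hs' y hy hD
      rw [if_pos hD, if_pos h2, h3]
    · have h2 : y ∉ N.D (g * s') x := fun h' => hD (hag s' hs' s hs y hy h').1
      rw [if_neg hD, if_neg h2]
  have hbis : ∀ s ∈ S, ∀ s' ∈ S, Bis (N.D (g * s) x) (N.D (g * s') x) (N.adj (g * s) x) (N.adj (g * s') x)
      (N.l (g * s) x) (N.l (g * s') x) fun m y y' => y' = y ∧ N.d y0 y + m * N.a ≤ (col N.Δ N.Λ + 4) * N.a := by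
    rintro s hs s' hs' m y y' ⟨rfl, hy⟩
    have hy' : N.d y0 y' ≤ (col N.Δ N.Λ + 4) * N.a := le_trans (Nat.le_add_right _ _) hy
    have hstep : ∀ u, N.d y' u ≤ N.a → N.d y0 u + m * N.a ≤ (col N.Δ N.Λ + 4) * N.a := by
      intro u hu
      have h2 := h.tri y0 y' u
      have e : (m + 1) * N.a = m * N.a + N.a := by ring
      omega
    refine ⟨⟨fun h' => (hag s hs s' hs' y' hy' h').1, fun h' => (hag s' hs' s hs y' hy' h').1⟩, hl s hs s' hs' y' hy', ?_, ?_⟩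
    · intro u hu
      have h2 := hstep u hu.2.2.1
      have h3 : N.d y0 u ≤ (col N.Δ N.Λ + 4) * N.a := le_trans (Nat.le_add_right _ _) h2
      refine ⟨u, ⟨(hag s hs s' hs' y' hy' hu.1).1, (hag s hs s' hs' u h3 hu.2.1).1, hu.2.2.1, ?_⟩, rfl, h2⟩
      rw [← hl s hs s' hs' y' hy', ← hl s hs s' hs' u h3]
      exact hu.2.2.2
    · intro u hu
      have h2 := hstep u hu.2.2.1
      have h3 : N.d y0 u ≤ (col N.Δ N.Λ + 4) * N.a := le_trans (Nat.le_add_right _ _) h2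
      refine ⟨u, ⟨(hag s' hs' s hs y' hy' hu.1).1, (hag s' hs' s hs u h3 hu.2.1).1, hu.2.2.1, ?_⟩, rfl, h2⟩
      rw [hl s hs s' hs' y' hy', hl s hs s' hs' u h3]
      exact hu.2.2.2
  have hz3 : N.d y0 z ≤ (col N.Δ N.Λ + 4) * N.a := by
    have e : (col N.Δ N.Λ + 4) * N.a = (col N.Δ N.Λ + 3) * N.a + N.a := by ring
    omega
  refine ⟨N.cl (N.cf (g * s0) x z), fun s hs => ⟨hx s hs, z, ?_, ?_, ?_⟩⟩
  · refine (net_local (hbis s0 hs0 s hs) ⟨rfl, ?_⟩).1 hz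
    have e : (col N.Δ N.Λ + 4) * N.a = (col N.Δ N.Λ + 3) * N.a + N.a := by ring
    omega
  · have h2 := hv s hs
    have h3 := h.tri z y0 (N.v (g * s) x)
    have h4 := h.comm y0 z
    omega
  · rw [(hag s0 hs0 s hs z hz3 (N.Z_sub hz)).2]

end Nd

end Pool.Agent.H59.CN
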